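import Pool.Agent.DL.P.Defs
import Pool.Agent.CI.K.Delta

/-!
# DELTA (MP_d362fb_lc), row P-CCC: a Delta-system of root contents

Among uncountably many conditions there are two with the same time, the same items on common root
nodes and the same released positions on common root promises.
-/

set_option autoImplicit false

namespace Pool.Agent.DL.P

open Set Cardinal

/-- The root contents of `r` and `r'` agree on everything they have in common: same time, same
items of common nodes, same released positions of common promises. -/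
structure Agree (r r' : Sys Prom) : Prop where
  n : r.n = r'.n
  it : ∀ x m v, .nd x ∈ r.X r.rt → .nd x ∈ r'.X r'.rt →
    (.it x m v ∈ r.X r.rt ↔ .it x m v ∈ r'.X r'.rt)
  rl : ∀ φ m, .pr φ ∈ r.X r.rt → .pr φ ∈ r'.X r'.rt →
    (.rl φ m ∈ r.X r.rt ↔ .rl φ m ∈ r'.X r'.rt)

theorem Agree.symm {r r' : Sys Prom} (h : Agree r r') : Agree r' r :=
  ⟨h.n.symm, fun x m v h1 h2 => (h.it x m v h2 h1).symm,
    fun φ m h1 h2 => (h.rl φ m h2 h1).symm⟩

section

variable {I : Type}

/-- Among uncountably many systems with finite root contents two agree. -/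
theorem exists_agree (r : I → Sys Prom) (hfin : ∀ i, ((r i).X (r i).rt).Finite)
    (hI : ℵ₀ < #I) : ∃ i j, i ≠ j ∧ Agree (r i) (r j) := by
  classical
  have hinj1 : Function.Injective (fun x : Node => (Fact.nd x : Fact Prom)) :=
    fun a b h => Fact.nd.inj h
  have hinj2 : Function.Injective (fun φ : Prom => (Fact.pr φ : Fact Prom)) :=
    fun a b h => Fact.pr.inj h
  have f1 : ∀ i, {x : Node | .nd x ∈ (r i).X (r i).rt}.Finite := fun i =>
    (hfin i).preimage hinj1.injOn
  have f2 : ∀ i, {φ : Prom | .pr φ ∈ (r i).X (r i).rt}.Finite := fun i =>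
    (hfin i).preimage hinj2.injOn
  have f3 : ∀ i (x : Node), {p : ℕ × ℕ | .it x p.1 p.2 ∈ (r i).X (r i).rt}.Finite := fun i x =>
    (hfin i).preimage (Function.Injective.injOn fun a b h => by
      have := Fact.it.inj h
      exact Prod.ext this.2.1 this.2.2)
  have f4 : ∀ i (φ : Prom), {m : ℕ | .rl φ m ∈ (r i).X (r i).rt}.Finite := fun i φ =>
    (hfin i).preimage (Function.Injective.injOn fun a b h => (Fact.rl.inj h).2)
  let supp : I → Finset (Node ⊕ Prom) := fun i =>
    (f1 i).toFinset.image Sum.inl ∪ (f2 i).toFinset.image Sum.inr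
  let d : I → Node ⊕ Prom → Finset (ℕ × ℕ) ⊕ Finset ℕ := fun i s =>
    Sum.elim (fun x => Sum.inl (f3 i x).toFinset) (fun φ => Sum.inr (f4 i φ).toFinset) s
  obtain ⟨R, i, hi, hsub, hint, hdat⟩ := CI.delta_seq (θ := ℵ₀) le_rfl
    (D := Finset (ℕ × ℕ) ⊕ Finset ℕ) (D' := ℕ) (Cardinal.mk_le_aleph0)
    (Cardinal.mk_le_aleph0) supp d (fun i => (r i).n) hI
  refine ⟨i 0, i 1, fun h => absurd (hi h) (by decide), ?_, ?_, ?_⟩
  · exact (hdat 0 1).1
  · intro x m v h0 h1
    have hm : (Sum.inl x : Node ⊕ Prom) ∈ R := by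
      rw [← hint 0 1 (by decide), Finset.mem_inter]
      constructor
      · exact Finset.mem_union_left _ (Finset.mem_image.2 ⟨x, by simpa using h0, rfl⟩)
      · exact Finset.mem_union_left _ (Finset.mem_image.2 ⟨x, by simpa using h1, rfl⟩)
    have h2 : (f3 (i 0) x).toFinset = (f3 (i 1) x).toFinset := Sum.inl.inj ((hdat 0 1).2 _ hm)
    have h3 := congrArg (fun s : Finset (ℕ × ℕ) => (m, v) ∈ s) h2
    simpa using h3
  · intro φ m h0 h1
    have hm : (Sum.inr φ : Node ⊕ Prom) ∈ R := by
      rw [← hint 0 1 (by decide), Finset.mem_inter]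
      constructor
      · exact Finset.mem_union_right _ (Finset.mem_image.2 ⟨φ, by simpa using h0, rfl⟩)
      · exact Finset.mem_union_right _ (Finset.mem_image.2 ⟨φ, by simpa using h1, rfl⟩)
    have h2 : (f4 (i 0) φ).toFinset = (f4 (i 1) φ).toFinset := Sum.inr.inj ((hdat 0 1).2 _ hm)
    have h3 := congrArg (fun s : Finset ℕ => m ∈ s) h2
    simpa using h3

end

/-- Compatibility of two conditions. -/
def Compat (r r' : Pos) : Prop := ∃ s, Stronger s r ∧ Stronger s r'

/-- STATEMENT of the gluing lemma (helper41). -/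
def Glue : Prop := ∀ r r' : Pos, Agree r.1 r'.1 → Compat r r'

/-- Every uncountable family of conditions contains two compatible ones. -/
theorem ccc_family (hG : Glue) {I : Type} (r : I → Pos) (hI : ℵ₀ < #I) :
    ∃ i j, i ≠ j ∧ Compat (r i) (r j) := by
  obtain ⟨i, j, hij, h⟩ := exists_agree (fun i => (r i).1)
    (fun i => ((r i).2.val.val _ (r i).2.val.rt).fin) hI
  exact ⟨i, j, hij, hG _ _ h⟩

/-- The countable chain condition: a set of pairwise incompatible conditions is countable. -/
theorem ccc (hG : Glue) (S : Set Pos) (hS : ∀ r ∈ S, ∀ r' ∈ S, r ≠ r' → ¬ Compat r r') :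
    S.Countable := by
  rw [← Cardinal.le_aleph0_iff_set_countable]
  by_contra hc
  obtain ⟨i, j, hij, h⟩ := ccc_family hG (fun i : S => i.1) (not_le.1 hc)
  exact hS i.1 i.2 j.1 j.2 (fun e => hij (Subtype.ext e)) h

end Pool.Agent.DL.P
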